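import Pool.Agent.MP_cebb75_nt.N.Upper

/-!
Euler products over sets of primes.
-/

set_option autoImplicit false

open Finset

noncomputable section

namespace Pool.Agent.MP_cebb75_nt.X

open MP_fdd1d3_nt

theorem sum_nn (P : Finset ℕ) :
    ∑ s ∈ P.powerset, 1 / nn (fun p => p) s = ∏ p ∈ P, (1 + 1 / (p : ℝ)) := by
  rw [prod_one_add]
  refine sum_congr rfl fun s _ => ?_
  simp [nn]

theorem prodP (x : ℕ) (hx : 2 ≤ x) (t : ℝ) (ht : 0 < t) (htx : t ≤ Real.log x) (P : Finset ℕ)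
    (hP : ∀ p ∈ P, p.Prime ∧ p ≤ x ∧ t < Real.log p) :
    ∏ p ∈ P, (1 + 1 / (p : ℝ)) ≤ 315 * Real.log x / t := by
  have hx0 : (0 : ℝ) < x := by positivity
  set v := ⌊Real.exp t⌋₊ with hv
  have hv1 : (v : ℝ) ≤ Real.exp t := Nat.floor_le (Real.exp_pos t).le
  have hv2 : t ≤ Real.log (v + 1) := by
    rw [Real.le_log_iff_exp_le (by positivity)]
    exact (Nat.lt_floor_add_one _).le
  have hvx : v ≤ x := by
    have : (v : ℝ) ≤ x := hv1.trans ((Real.le_log_iff_exp_le hx0).1 htx)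
    exact_mod_cast this
  have h1 := mertens_b x hx
  rw [sum_nn] at h1
  have h2 := mertens_c 2 v v le_rfl le_rfl
  have h3 : ∑ s ∈ (PP 2 v).powerset.filter (fun s => ∏ p ∈ s, p ≤ v), 1 / nn (fun p => p) s ≤
      ∏ p ∈ PP 2 v, (1 + 1 / (p : ℝ)) := by
    rw [← sum_nn]
    exact sum_le_sum_of_subset_of_nonneg (filter_subset _ _) fun s _ _ => by
      unfold nn; positivity
  have hdis : Disjoint (PP 2 v) P := disjoint_left.2 fun p hp hq => by
    have h4 := (hP p hq).2.2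
    rw [Real.lt_log_iff_exp_lt (by exact_mod_cast (hP p hq).1.pos)] at h4
    have h5 : (p : ℝ) ≤ v := by exact_mod_cast ((mem_PP _ _ _).1 hp).1.2
    linarith
  have h4 : (∏ p ∈ PP 2 v, (1 + 1 / (p : ℝ))) * ∏ p ∈ P, (1 + 1 / (p : ℝ)) ≤
      ∏ p ∈ PP 0 x, (1 + 1 / (p : ℝ)) := by
    rw [← prod_union hdis]
    refine prod_le_prod_of_subset_of_one_le (fun p hp => ?_) (fun p _ => by positivity)
      fun p _ _ => le_add_of_nonneg_right (by positivity)
    rcases mem_union.1 hp with h | h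
    · have := (mem_PP _ _ _).1 h
      exact (mem_PP _ _ _).2 ⟨⟨this.2.pos, by omega⟩, this.2⟩
    · exact (mem_PP _ _ _).2 ⟨⟨(hP p h).1.pos, (hP p h).2.1⟩, (hP p h).1⟩
  have h5 : 0 ≤ ∏ p ∈ PP 2 v, (1 + 1 / (p : ℝ)) := prod_nonneg fun p _ => by positivity
  have h6 : 0 ≤ ∏ p ∈ P, (1 + 1 / (p : ℝ)) := prod_nonneg fun p _ => by positivity
  have h7 : t ≤ 21 * ∏ p ∈ PP 2 v, (1 + 1 / (p : ℝ)) := by
    have h8 : (30 : ℝ) * Real.log (2 : ℕ) ≤ 21 := by push_cast; linarith [Real.log_two_lt_d9]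
    exact hv2.trans (h2.trans (mul_le_mul h8 h3
      (sum_nonneg fun s _ => by unfold nn; positivity) (by norm_num)))
  rw [le_div_iff₀ ht]
  nlinarith [mul_le_mul_of_nonneg_left h7 h6]

theorem tilt (P : Finset ℕ) (c : ℝ) (hc : 1 ≤ c) :
    ∑ T ∈ P.powerset, c ^ T.card / ((∏ p ∈ T, p : ℕ) : ℝ) ≤ (∏ p ∈ P, (1 + 1 / (p : ℝ))) ^ c := by
  have h3 : ∑ D ∈ P.powerset, c ^ D.card / ((∏ p ∈ D, p : ℕ) : ℝ) =
      ∏ p ∈ P, (1 + c * (1 / (p : ℝ))) := by
    rw [prod_one_add]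
    refine sum_congr rfl fun s _ => ?_
    simp [prod_mul_distrib, div_eq_mul_inv]
  rw [h3, ← Real.finsetProd_rpow _ _ (fun p _ => by positivity) c]
  exact prod_le_prod (fun p _ => by positivity) fun p _ =>
    one_add_mul_self_le_rpow_one_add (le_trans (by norm_num) (by positivity : (0 : ℝ) ≤ 1 / p)) hc

theorem rankin (P : Finset ℕ) (l c L : ℝ) (hl : 1 ≤ l) (hc : 0 ≤ c)
    (hP : ∀ p ∈ P, p.Prime ∧ Real.log p ≤ l) :
    ∑ T ∈ P.powerset, (if L ≤ ∑ p ∈ T, Real.log p then 2 ^ T.card / ((∏ p ∈ T, p : ℕ) : ℝ) else 0) ≤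
      Real.exp (6 * c * Real.exp c - c * L / l) * (∏ p ∈ P, (1 + 1 / (p : ℝ))) ^ 2 := by
  have hl0 : 0 < l := by linarith
  have h1 : ∀ T ∈ P.powerset,
      (if L ≤ ∑ p ∈ T, Real.log p then 2 ^ T.card / ((∏ p ∈ T, p : ℕ) : ℝ) else 0) ≤
      Real.exp (-(c * L / l)) * ∏ p ∈ T, (2 * Real.exp (c * Real.log p / l) / p) := by
    intro T _
    split_ifs with h
    · rw [prod_div_distrib, prod_mul_distrib, prod_const, ← Real.exp_sum, Nat.cast_prod,
        ← mul_div_assoc]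
      refine div_le_div_of_nonneg_right ?_ (by positivity)
      rw [mul_left_comm, ← Real.exp_add, ← sum_div, ← mul_sum]
      refine le_mul_of_one_le_right (by positivity) (Real.one_le_exp ?_)
      have := div_le_div_of_nonneg_right (mul_le_mul_of_nonneg_left h hc) hl0.le
      linarith
    · positivity
  refine (sum_le_sum h1).trans ?_
  rw [← mul_sum, ← prod_one_add, sub_eq_add_neg, add_comm, Real.exp_add, mul_assoc]
  refine mul_le_mul_of_nonneg_left ?_ (Real.exp_pos _).le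
  have h2 : ∀ p ∈ P, 1 + 2 * Real.exp (c * Real.log p / l) / p ≤
      Real.exp (2 * c * Real.exp c / l * (Real.log p * (1 / p))) * (1 + 1 / (p : ℝ)) ^ 2 := by
    intro p hp
    set s := c * Real.log p / l with hs
    have hs0 : 0 ≤ s := div_nonneg (mul_nonneg hc (Real.log_natCast_nonneg p)) hl0.le
    have hsc : s ≤ c := by
      rw [hs, div_le_iff₀ hl0]
      exact mul_le_mul_of_nonneg_left (hP p hp).2 hc
    have h3 : Real.exp s ≤ 1 + s * Real.exp c := by
      have h4 := Real.add_one_le_exp (-s)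
      have h5 : Real.exp s * Real.exp (-s) = 1 := by rw [← Real.exp_add]; simp
      have h6 := Real.exp_le_exp.2 hsc
      nlinarith [Real.exp_pos s, mul_le_mul_of_nonneg_left h6 hs0]
    set w := 1 / (p : ℝ) with hw
    have hw0 : 0 ≤ w := by positivity
    have h4 : 2 * c * Real.exp c / l * (Real.log p * w) = 2 * (s * Real.exp c) * w := by
      rw [hs]; ring
    rw [h4, div_eq_mul_one_div, ← hw]
    have h5 := Real.add_one_le_exp (2 * (s * Real.exp c) * w)
    have h6 : 0 ≤ 2 * (s * Real.exp c) * w := by positivity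
    have h7 := mul_le_mul_of_nonneg_right h5 (show 0 ≤ (1 + w) ^ 2 by positivity)
    nlinarith [mul_le_mul_of_nonneg_right h3 hw0, mul_nonneg h6 hw0, sq_nonneg w,
      mul_nonneg h6 (sq_nonneg w)]
  refine (prod_le_prod (fun p _ => by positivity) h2).trans ?_
  rw [prod_mul_distrib, prod_pow, ← Real.exp_sum, ← mul_sum]
  refine mul_le_mul_of_nonneg_right (Real.exp_le_exp.2 ?_) (by positivity)
  set v := ⌊Real.exp l⌋₊ with hv
  have hv0 : 0 < v := Nat.floor_pos.2 (Real.one_le_exp hl0.le)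
  have h3 := mertens_a v hv0
  have h4 : Real.log v ≤ l := by
    rw [Real.log_le_iff_le_exp (by exact_mod_cast hv0)]
    exact Nat.floor_le (Real.exp_pos l).le
  have h5 : ∑ p ∈ P, Real.log p * (1 / (p : ℝ)) ≤ 3 * l := by
    refine (sum_le_sum_of_subset_of_nonneg (t := PP 0 v) (fun p hp => ?_)
      fun p _ _ => mul_nonneg (Real.log_natCast_nonneg p) (by positivity)).trans ?_
    · refine (mem_PP _ _ _).2 ⟨⟨(hP p hp).1.pos, Nat.le_floor ?_⟩, (hP p hp).1⟩
      exact (Real.log_le_iff_le_exp (by exact_mod_cast (hP p hp).1.pos)).1 (hP p hp).2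
    · rw [show (4 : ℝ) = 2 ^ 2 by norm_num, Real.log_pow] at h3
      push_cast at h3
      linarith [Real.log_two_lt_d9]
  refine (mul_le_mul_of_nonneg_left h5 (by positivity)).trans (le_of_eq ?_)
  field_simp
  ring

theorem two_pow_le_tau {m : ℕ} (hm : m ≠ 0) : 2 ^ m.primeFactors.card ≤ m.divisors.card := by
  rw [Nat.card_divisors hm]
  exact pow_card_le_prod _ _ _ fun p hp => by
    have := (Nat.prime_of_mem_primeFactors hp).factorization_pos_of_dvd hm
      (Nat.dvd_of_mem_primeFactors hp)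
    omega

/-- the pointwise bound for the divisor function -/
theorem tau_pt (m k : ℕ) (hm : 0 < m) (hk : 0 < k) (P : Finset ℕ) (X l J R C ε : ℝ) (hl : 0 < l)
    (hε : 0 ≤ ε) (hC0 : 0 ≤ C) (hC : ∀ n : ℕ, (n.divisors.card : ℝ) ≤ C * (n : ℝ) ^ ε)
    (hX : Real.log m ≤ X) (hR : ∀ r : ℕ, r ^ 2 ∣ m → (r : ℝ) ≤ R)
    (hp : ∀ p : ℕ, p.Prime → p ∣ m → p ∣ k ∨ p ∈ P ∨ l < Real.log p)
    (hJ : ((P.filter fun p => p ∣ m).card : ℝ) ≤ J) :
    (m.divisors.card : ℝ) ≤
      C * (R ^ 2) ^ ε * (k.divisors.card * Real.exp ((J + X / l) * Real.log 2)) := by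
  obtain ⟨q, r, hq0, hr0, hqr, hq⟩ := Nat.sq_mul_squarefree_of_pos hm
  have h1 := N.tau_mul_le (r ^ 2) q
  rw [hqr, N.tau_sqf hq] at h1
  have h2 : (m.divisors.card : ℝ) ≤ ((r ^ 2).divisors.card : ℝ) * 2 ^ q.primeFactors.card := by
    exact_mod_cast h1
  have hr := hR r (Dvd.intro _ hqr)
  have h3 : ((r ^ 2).divisors.card : ℝ) ≤ C * (R ^ 2) ^ ε := by
    refine (hC _).trans (mul_le_mul_of_nonneg_left
      (Real.rpow_le_rpow (by positivity) ?_ hε) hC0)
    rw [Nat.cast_pow]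
    exact pow_le_pow_left₀ (by positivity) hr 2
  set L := m.primeFactors.filter fun p : ℕ => l < Real.log p with hL
  have h4 : q.primeFactors ⊆ k.primeFactors ∪ (P.filter fun p => p ∣ m) ∪ L := by
    intro p hpq
    have h5 := Nat.prime_of_mem_primeFactors hpq
    have h6 : p ∣ m := (Nat.dvd_of_mem_primeFactors hpq).trans (Dvd.intro_left _ hqr)
    simp only [mem_union, hL, mem_filter, Nat.mem_primeFactors]
    rcases hp p h5 h6 with h | h | h
    · exact Or.inl (Or.inl ⟨h5, h, hk.ne'⟩)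
    · exact Or.inl (Or.inr ⟨h, h6⟩)
    · exact Or.inr ⟨⟨h5, h6, hm.ne'⟩, h⟩
  have h5 : (L.card : ℝ) ≤ X / l := by
    have h6 := LL_le_log L m hm fun p hp => by
      have := (mem_filter.1 hp).1
      exact ⟨Nat.prime_of_mem_primeFactors this, Nat.dvd_of_mem_primeFactors this⟩
    have h7 := card_nsmul_le_sum L (fun p : ℕ => Real.log p) l fun p hp => (mem_filter.1 hp).2.le
    rw [nsmul_eq_mul] at h7
    rw [le_div_iff₀ hl]
    exact h7.trans (h6.trans hX)
  have h6 : q.primeFactors.card ≤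
      k.primeFactors.card + ((P.filter fun p => p ∣ m).card + L.card) := by
    have := (card_le_card h4).trans ((card_union_le _ _).trans
      (Nat.add_le_add_right (card_union_le _ _) _))
    omega
  refine h2.trans (mul_le_mul h3 ?_ (by positivity) ((Nat.cast_nonneg _).trans h3))
  refine (pow_le_pow_right₀ (by norm_num) h6).trans ?_
  rw [pow_add]
  refine mul_le_mul (by exact_mod_cast two_pow_le_tau hk.ne') ?_ (by positivity) (by positivity)
  rw [← Real.exp_log (show (0 : ℝ) < 2 ^ _ by positivity), Real.log_pow, Real.exp_le_exp]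
  refine mul_le_mul_of_nonneg_right ?_ (Real.log_nonneg (by norm_num))
  push_cast
  linarith

end Pool.Agent.MP_cebb75_nt.X
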